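import Pool.Agent.H274Z.RM.Main

set_option autoImplicit false

universe u v

/-- Let `R` be a local ring of Krull dimension one that is module-finite over a discrete valuation
ring `O`. For every `N` there are only finitely many isomorphism classes of rigid maximal
Cohen-Macaulay `R`-modules of multiplicity at most `N`. -/
theorem Pool.Agent.Results.MP_d7d607_ag.BDimOneOverDVR.result (O : Type v) [CommRing O] [IsDomain O] [IsDiscreteValuationRing O]
    (R : Type u) [CommRing R] [IsLocalRing R] [Algebra O R] [Module.Finite O R]
    (hdim : ringKrullDim R = 1) (N : ℕ) :
    ∃ (k : ℕ) (F : Fin k → ModuleCat.{u} R),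
      ∀ (M : Type u) [AddCommGroup M] [Module R M],
        Module.Finite R M →
        (∃ rs : List R,
            (∀ r ∈ rs, r ∈ IsLocalRing.maximalIdeal R) ∧
            RingTheory.Sequence.IsRegular M rs ∧
            ((rs.length : WithBot ℕ∞) = ringKrullDim R) ∧
            ∃ e : ℝ, e ≤ (N : ℝ) ∧
              Filter.Tendsto
                (fun n : ℕ =>
                  ((rs.length).factorial : ℝ) *
                    ((Module.length R
                        (M ⧸ ((IsLocalRing.maximalIdeal R ^ n) •
                          (⊤ : Submodule R M)))).toNat : ℝ) /
                    ((n : ℝ) ^ rs.length))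
                Filter.atTop (nhds e)) →
        (∀ (E : Type u) [AddCommGroup E] [Module R E]
            (f : M →ₗ[R] E) (g : E →ₗ[R] M),
            Function.Injective f → Function.Surjective g →
            LinearMap.range f = LinearMap.ker g →
            ∃ s : M →ₗ[R] E, g ∘ₗ s = LinearMap.id) →
        ∃ i : Fin k, Nonempty (M ≃ₗ[R] (F i)) :=
  Pool.Agent.H274Z.RM.main O R hdim N
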